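import Pool.Agent.K1H12.SW.Stm

/-!
# Project HE (helper12), piece LAT: tensoring a resolution with a lattice
-/

set_option autoImplicit false

namespace Pool.Agent.K1H65.HE

open Pool.Agent.K1H12.SW

section

variable {G : Type} [Group G] {ι : Type} [Fintype ι] [DecidableEq ι]

/-- the twisted power of a module -/
def T (_A : G →* Matrix ι ι ℤ) (M : Type) : Type := ι → M

instance instACG (A : G →* Matrix ι ι ℤ) (M : Type) [AddCommGroup M] : AddCommGroup (T A M) :=
  inferInstanceAs (AddCommGroup (ι → M))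

/-- the twisted action -/
noncomputable def act (A : G →* Matrix ι ι ℤ) (M : Type) [AddCommGroup M]
    [Module (MonoidAlgebra ℤ G) M] : G →* Module.End ℤ (ι → M) where
  toFun g :=
    { toFun := fun f i => ∑ j, A g i j • (MonoidAlgebra.single g (1 : ℤ) • f j)
      map_add' := fun f f' => by
        funext i
        simp [Finset.sum_add_distrib]
      map_smul' := fun n f => by
        funext i
        simp only [Pi.smul_apply, RingHom.id_apply, Finset.smul_sum]
        refine Finset.sum_congr rfl fun j _ => ?_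
        rw [smul_comm (MonoidAlgebra.single g (1 : ℤ)) n, smul_comm (A g i j) n] }
  map_one' := by
    refine LinearMap.ext fun f => funext fun i => ?_
    change ∑ j, (A 1) i j • (MonoidAlgebra.single (1 : G) (1 : ℤ) • f j) = f i
    rw [map_one, ← MonoidAlgebra.one_def]
    simp [Matrix.one_apply]
  map_mul' g h := by
    refine LinearMap.ext fun f => funext fun i => ?_
    change ∑ j, (A (g * h)) i j • (MonoidAlgebra.single (g * h) (1 : ℤ) • f j)
      = ∑ j, (A g) i j • (MonoidAlgebra.single g (1 : ℤ) •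
          ∑ l, (A h) j l • (MonoidAlgebra.single h (1 : ℤ) • f l))
    have hs : (MonoidAlgebra.single (g * h) (1 : ℤ) : MonoidAlgebra ℤ G)
        = MonoidAlgebra.single g 1 * MonoidAlgebra.single h 1 := by
      rw [MonoidAlgebra.single_mul_single, one_mul]
    rw [hs, map_mul]
    simp only [Matrix.mul_apply, Finset.sum_smul, Finset.smul_sum]
    rw [Finset.sum_comm]
    refine Finset.sum_congr rfl fun j _ => Finset.sum_congr rfl fun l _ => ?_
    rw [mul_smul, mul_smul, smul_comm (MonoidAlgebra.single g (1 : ℤ)) ((A h) j l)]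

noncomputable instance instMod (A : G →* Matrix ι ι ℤ) (M : Type) [AddCommGroup M]
    [Module (MonoidAlgebra ℤ G) M] : Module (MonoidAlgebra ℤ G) (T A M) :=
  Module.compHom (ι → M) (MonoidAlgebra.lift ℤ (Module.End ℤ (ι → M)) G (act A M)).toRingHom

theorem single_smul_T (A : G →* Matrix ι ι ℤ) (M : Type) [AddCommGroup M]
    [Module (MonoidAlgebra ℤ G) M] (g : G) (f : T A M) :
    MonoidAlgebra.single g (1 : ℤ) • f
      = (fun i => ∑ j, A g i j • (MonoidAlgebra.single g (1 : ℤ) • f j) : ι → M) := by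
  change (MonoidAlgebra.lift ℤ (Module.End ℤ (ι → M)) G (act A M)) (MonoidAlgebra.single g 1) f = _
  rw [MonoidAlgebra.lift_single, one_smul]
  rfl

/-- additive equivariant maps are linear -/
def mkLin {M N : Type} [AddCommGroup M] [Module (MonoidAlgebra ℤ G) M] [AddCommGroup N]
    [Module (MonoidAlgebra ℤ G) N] (φ : M →+ N)
    (h : ∀ (g : G) (m : M), φ (MonoidAlgebra.single g (1 : ℤ) • m)
      = MonoidAlgebra.single g (1 : ℤ) • φ m) : M →ₗ[MonoidAlgebra ℤ G] N where
  toFun := φ
  map_add' := φ.map_add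
  map_smul' r m := by
    simp only [RingHom.id_apply]
    induction r using MonoidAlgebra.induction_linear with
    | zero => simp
    | add a b ha hb => rw [add_smul, add_smul, map_add, ha, hb]
    | single g n =>
      have hs : (MonoidAlgebra.single g n : MonoidAlgebra ℤ G) = n • MonoidAlgebra.single g 1 := by
        simp
      rw [hs, smul_assoc, smul_assoc, map_zsmul, h]

variable {A : G →* Matrix ι ι ℤ} {M N : Type} [AddCommGroup M] [Module (MonoidAlgebra ℤ G) M]
  [AddCommGroup N] [Module (MonoidAlgebra ℤ G) N]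

/-- functoriality, additive -/
def TmapAdd (A : G →* Matrix ι ι ℤ) (f : M →+ N) : T A M →+ T A N where
  toFun v := (fun i => f (v i) : ι → N)
  map_zero' := by
    funext i
    exact map_zero f
  map_add' := fun v w => by
    funext i
    exact map_add f _ _

/-- functoriality -/
noncomputable def Tmap (A : G →* Matrix ι ι ℤ) (f : M →ₗ[MonoidAlgebra ℤ G] N) :
    T A M →ₗ[MonoidAlgebra ℤ G] T A N :=
  mkLin (TmapAdd A f.toAddMonoidHom)
    (fun g v => by
      rw [single_smul_T, single_smul_T]
      funext i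
      change f (∑ j, A g i j • (MonoidAlgebra.single g (1 : ℤ) • v j)) =
        ∑ j, A g i j • (MonoidAlgebra.single g (1 : ℤ) • f (v j))
      rw [map_sum]
      refine Finset.sum_congr rfl fun j _ => ?_
      rw [map_zsmul, map_smul])

theorem Tmap_apply (f : M →ₗ[MonoidAlgebra ℤ G] N) (v : T A M) (i : ι) :
    Tmap A f v i = f (v i) := rfl

theorem Tmap_surjective (f : M →ₗ[MonoidAlgebra ℤ G] N) (h : Function.Surjective f) :
    Function.Surjective (Tmap A f) := by
  intro w
  choose s hs using h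
  exact ⟨(fun i => s (w i) : ι → M), funext fun i => hs (w i)⟩

/-- the kernel -/
noncomputable def kerEquiv (f : M →ₗ[MonoidAlgebra ℤ G] N) :
    T A (LinearMap.ker f) ≃ₗ[MonoidAlgebra ℤ G] LinearMap.ker (Tmap A f) :=
  LinearEquiv.ofBijective
    (LinearMap.codRestrict (LinearMap.ker (Tmap A f)) (Tmap A (LinearMap.ker f).subtype)
      (fun v => by
        rw [LinearMap.mem_ker]
        funext i
        exact (v i).2))
    (by
      constructor
      · intro v w h
        funext i
        apply Subtype.ext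
        exact congrFun (congrArg Subtype.val h) i
      · rintro ⟨w, hw⟩
        have hw' : Tmap A f w = 0 := LinearMap.mem_ker.mp hw
        refine ⟨fun i => ⟨w i, congrFun hw' i⟩, ?_⟩
        apply Subtype.ext
        rfl)

/-- isomorphic modules have isomorphic twisted powers -/
noncomputable def Tcongr (A : G →* Matrix ι ι ℤ) (e : M ≃ₗ[MonoidAlgebra ℤ G] N) :
    T A M ≃ₗ[MonoidAlgebra ℤ G] T A N :=
  LinearEquiv.ofLinearMap (Tmap A e.toLinearMap) (Tmap A e.symm.toLinearMap)
    (by
      ext1 v
      funext i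
      exact e.apply_symm_apply (v i))
    (by
      ext1 v
      funext i
      exact e.symm_apply_apply (v i))

/-- products -/
noncomputable def prodEquiv (A : G →* Matrix ι ι ℤ) (M N : Type) [AddCommGroup M]
    [Module (MonoidAlgebra ℤ G) M] [AddCommGroup N] [Module (MonoidAlgebra ℤ G) N] :
    T A (M × N) ≃ₗ[MonoidAlgebra ℤ G] T A M × T A N :=
  LinearEquiv.ofBijective
    (LinearMap.prod (Tmap A (LinearMap.fst (MonoidAlgebra ℤ G) M N))
      (Tmap A (LinearMap.snd (MonoidAlgebra ℤ G) M N)))
    (by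
      constructor
      · intro v w h
        funext i
        have h1 := congrFun (congrArg Prod.fst h) i
        have h2 := congrFun (congrArg Prod.snd h) i
        exact Prod.ext h1 h2
      · rintro ⟨v, w⟩
        exact ⟨fun i => (v i, w i), rfl⟩)

/-- powers -/
noncomputable def piEquiv (A : G →* Matrix ι ι ℤ) (κ : Type) (M : Type) [AddCommGroup M]
    [Module (MonoidAlgebra ℤ G) M] :
    T A (κ → M) ≃ₗ[MonoidAlgebra ℤ G] (κ → T A M) :=
  LinearEquiv.ofBijective
    (LinearMap.pi fun k => Tmap A (LinearMap.proj k))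
    (by
      constructor
      · intro v w h
        funext i k
        exact congrFun (congrFun h k) i
      · intro v
        exact ⟨fun i k => v k i, rfl⟩)

/-! ### untwisting -/

/-- the standard generators of the twisted power of the ring -/
noncomputable def e (A : G →* Matrix ι ι ℤ) (j : ι) : T A (MonoidAlgebra ℤ G) :=
  (fun i => if i = j then 1 else 0 : ι → MonoidAlgebra ℤ G)

theorem coeff_smul_e (A : G →* Matrix ι ι ℤ) (x : MonoidAlgebra ℤ G) (i j : ι) (g : G) :
    MonoidAlgebra.coeff ((x • e A j : T A (MonoidAlgebra ℤ G)) i) g = A g i j * x.coeff g := by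
  induction x using MonoidAlgebra.induction_linear with
  | zero =>
    rw [zero_smul]
    change MonoidAlgebra.coeff (0 : MonoidAlgebra ℤ G) g = _
    simp
  | add a b ha hb =>
    rw [add_smul]
    change MonoidAlgebra.coeff ((a • e A j : T A (MonoidAlgebra ℤ G)) i +
      (b • e A j : T A (MonoidAlgebra ℤ G)) i) g = _
    rw [MonoidAlgebra.coeff_add, Finsupp.add_apply, ha, hb, MonoidAlgebra.coeff_add,
      Finsupp.add_apply, mul_add]
  | single h n =>
    have hs : (MonoidAlgebra.single h n : MonoidAlgebra ℤ G) = n • MonoidAlgebra.single h 1 := by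
      simp
    rw [hs, smul_assoc, single_smul_T]
    change MonoidAlgebra.coeff (n • ∑ l, A h i l • (MonoidAlgebra.single h (1 : ℤ) •
      (if l = j then (1 : MonoidAlgebra ℤ G) else 0))) g = _
    have h1 : ∑ l, A h i l • (MonoidAlgebra.single h (1 : ℤ) •
      (if l = j then (1 : MonoidAlgebra ℤ G) else 0)) = A h i j • MonoidAlgebra.single h (1 : ℤ) := by
      rw [Finset.sum_eq_single j]
      · simp
      · intro l _ hl
        simp [hl]
      · simp
    rw [h1]
    simp only [MonoidAlgebra.coeff_smul, MonoidAlgebra.coeff_single, Finsupp.smul_apply,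
      smul_eq_mul]
    by_cases hg : h = g
    · subst hg
      simp
      ring
    · simp [hg]

/-- pointwise multiplication of coefficients -/
theorem exists_mul (c : G → ℤ) (x : MonoidAlgebra ℤ G) :
    ∃ y : MonoidAlgebra ℤ G, ∀ g, y.coeff g = c g * x.coeff g := by
  induction x using MonoidAlgebra.induction_linear with
  | zero => exact ⟨0, fun g => by simp⟩
  | add a b ha hb =>
    obtain ⟨y, hy⟩ := ha
    obtain ⟨z, hz⟩ := hb
    refine ⟨y + z, fun g => ?_⟩
    rw [MonoidAlgebra.coeff_add, MonoidAlgebra.coeff_add, Finsupp.add_apply, Finsupp.add_apply,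
      hy, hz, mul_add]
  | single h n =>
    refine ⟨MonoidAlgebra.single h (c h * n), fun g => ?_⟩
    simp only [MonoidAlgebra.coeff_single]
    by_cases hg : h = g
    · subst hg
      simp
    · simp [hg]

/-- the untwisting map -/
noncomputable def u (A : G →* Matrix ι ι ℤ) :
    (ι → MonoidAlgebra ℤ G) →ₗ[MonoidAlgebra ℤ G] T A (MonoidAlgebra ℤ G) where
  toFun a := ∑ j, a j • e A j
  map_add' a b := by simp [add_smul, Finset.sum_add_distrib]
  map_smul' r a := by simp [mul_smul, Finset.smul_sum]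

omit [Module (MonoidAlgebra ℤ G) M] in
theorem T_sum_apply (A : G →* Matrix ι ι ℤ) {κ : Type} (s : Finset κ) (f : κ → T A M) (i : ι) :
    (∑ k ∈ s, f k : T A M) i = ∑ k ∈ s, (f k : ι → M) i :=
  Finset.sum_apply i s f

theorem coeff_u (A : G →* Matrix ι ι ℤ) (a : ι → MonoidAlgebra ℤ G) (i : ι) (g : G) :
    MonoidAlgebra.coeff ((u A a : T A (MonoidAlgebra ℤ G)) i) g
      = ∑ j, A g i j * (a j).coeff g := by
  change MonoidAlgebra.coeff ((∑ j, a j • e A j : T A (MonoidAlgebra ℤ G)) i) g = _
  rw [T_sum_apply, MonoidAlgebra.coeff_sum, Finsupp.finsetSum_apply]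
  exact Finset.sum_congr rfl fun j _ => coeff_smul_e A (a j) i j g

theorem u_bijective (A : G →* Matrix ι ι ℤ) : Function.Bijective (u A) := by
  constructor
  · rw [injective_iff_map_eq_zero]
    intro a ha
    funext j
    refine MonoidAlgebra.ext (Finsupp.ext fun g => ?_)
    have h1 : (A g).mulVec (fun j => (a j).coeff g) = 0 := by
      funext i
      have h2 := coeff_u A a i g
      rw [ha] at h2
      exact h2.symm
    have h3 : (A g⁻¹).mulVec ((A g).mulVec (fun j => (a j).coeff g)) = fun j => (a j).coeff g := by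
      rw [Matrix.mulVec_mulVec, ← map_mul, inv_mul_cancel, map_one, Matrix.one_mulVec]
    rw [h1, Matrix.mulVec_zero] at h3
    exact (congrFun h3 j).symm
  · intro f
    choose y hy using fun (j l : ι) => exists_mul (fun g => A g⁻¹ j l) (f l)
    refine ⟨fun j => ∑ l, y j l, ?_⟩
    funext i
    refine MonoidAlgebra.ext (Finsupp.ext fun g => ?_)
    rw [coeff_u]
    have h1 : ∀ j, (∑ l, y j l).coeff g = (A g⁻¹).mulVec (fun l => (f l).coeff g) j := by
      intro j
      rw [MonoidAlgebra.coeff_sum, Finsupp.finsetSum_apply]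
      exact Finset.sum_congr rfl fun l _ => hy j l g
    have h3 : (A g).mulVec ((A g⁻¹).mulVec (fun l => (f l).coeff g)) = fun l => (f l).coeff g := by
      rw [Matrix.mulVec_mulVec, ← map_mul, mul_inv_cancel, map_one, Matrix.one_mulVec]
    simp only [h1]
    exact congrFun h3 i

/-- untwisting -/
noncomputable def untwist (A : G →* Matrix ι ι ℤ) :
    (ι → MonoidAlgebra ℤ G) ≃ₗ[MonoidAlgebra ℤ G] T A (MonoidAlgebra ℤ G) :=
  LinearEquiv.ofBijective (u A) (u_bijective A)

/-- free modules -/
theorem free_equiv (A : G →* Matrix ι ι ℤ) (a : ℕ) :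
    Nonempty (T A (Fin a → MonoidAlgebra ℤ G) ≃ₗ[MonoidAlgebra ℤ G]
      (Fin (a * Fintype.card ι) → MonoidAlgebra ℤ G)) := by
  have e1 := piEquiv A (Fin a) (MonoidAlgebra ℤ G)
  have e2 : (Fin a → T A (MonoidAlgebra ℤ G)) ≃ₗ[MonoidAlgebra ℤ G]
      (Fin a → ι → MonoidAlgebra ℤ G) := LinearEquiv.piCongrRight fun _ => (untwist A).symm
  have e3 : (Fin a × ι → MonoidAlgebra ℤ G) ≃ₗ[MonoidAlgebra ℤ G]
      (Fin a → ι → MonoidAlgebra ℤ G) := LinearEquiv.curry _ _ _ _
  have e4 : (Fin (a * Fintype.card ι) → MonoidAlgebra ℤ G) ≃ₗ[MonoidAlgebra ℤ G]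
      (Fin a × ι → MonoidAlgebra ℤ G) := LinearEquiv.funCongrLeft _ _
        (((Fintype.equivFin (Fin a × ι)).trans (finCongr (by simp))))
  exact ⟨e1.trans (e2.trans (e3.symm.trans e4.symm))⟩

/-! ### the classes -/

theorem SF_T (A : G →* Matrix ι ι ℤ) (P : Type) [AddCommGroup P] [Module (MonoidAlgebra ℤ G) P]
    (h : SF (MonoidAlgebra ℤ G) P) : SF (MonoidAlgebra ℤ G) (T A P) := by
  obtain ⟨a, b, ⟨e0⟩⟩ := h
  obtain ⟨ea⟩ := free_equiv A a
  obtain ⟨eb⟩ := free_equiv A b
  refine ⟨a * Fintype.card ι, b * Fintype.card ι, ⟨?_⟩⟩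
  have e1 : (T A P × (Fin (a * Fintype.card ι) → MonoidAlgebra ℤ G)) ≃ₗ[MonoidAlgebra ℤ G]
      (T A P × T A (Fin a → MonoidAlgebra ℤ G)) :=
    LinearEquiv.prodCongr (LinearEquiv.refl _ _) ea.symm
  have e2 := (prodEquiv A P (Fin a → MonoidAlgebra ℤ G)).symm
  exact e1.trans (e2.trans ((Tcongr A e0).trans eb))

theorem PR_T (A : G →* Matrix ι ι ℤ) (P : Type) [AddCommGroup P] [Module (MonoidAlgebra ℤ G) P]
    (h : PR (MonoidAlgebra ℤ G) P) : PR (MonoidAlgebra ℤ G) (T A P) := by
  obtain ⟨hf, hp⟩ := h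
  obtain ⟨b, π, hπ⟩ := Module.Finite.exists_fin' (MonoidAlgebra ℤ G) P
  obtain ⟨s, hs⟩ := Module.projective_lifting_property π (LinearMap.id : P →ₗ[MonoidAlgebra ℤ G] P) hπ
  obtain ⟨eb⟩ := free_equiv A b
  have hfr : Module.Projective (MonoidAlgebra ℤ G) (T A (Fin b → MonoidAlgebra ℤ G)) :=
    Module.Projective.of_equiv eb.symm
  have hfi : Module.Finite (MonoidAlgebra ℤ G) (T A (Fin b → MonoidAlgebra ℤ G)) :=
    Module.Finite.equiv eb.symm
  constructor
  · exact Module.Finite.of_surjective (Tmap A π) (Tmap_surjective π hπ)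
  · refine Module.Projective.of_split (Tmap A s) (Tmap A π) ?_
    ext1 v
    funext i
    exact congrArg (fun φ => φ (v i)) hs

end

section

variable {R : Type} [Ring R] (C : ∀ (P : Type) [AddCommGroup P] [Module R P], Prop)

/-- isomorphism invariance of resolutions -/
theorem Res_iso (hC : ∀ (P Q : Type) [AddCommGroup P] [Module R P] [AddCommGroup Q] [Module R Q],
    (P ≃ₗ[R] Q) → C P → C Q) (n : ℕ) : ∀ (M N : Type) [AddCommGroup M] [Module R M]
    [AddCommGroup N] [Module R N], (M ≃ₗ[R] N) → Res R C n M → Res R C n N := by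
  induction n with
  | zero =>
    intro M N _ _ _ _ e h
    exact hC M N e h
  | succ n ih =>
    intro M N _ _ _ _ e h
    obtain ⟨P, _, _, f, hP, hf, hk⟩ := h
    refine ⟨P, inferInstance, inferInstance, e.toLinearMap.comp f, hP, ?_, ?_⟩
    · exact e.surjective.comp hf
    · refine ih _ _ (LinearEquiv.ofEq _ _ ?_) hk
      ext x
      simp

theorem SF_iso (P Q : Type) [AddCommGroup P] [Module R P] [AddCommGroup Q] [Module R Q]
    (e : P ≃ₗ[R] Q) (h : SF R P) : SF R Q := by
  obtain ⟨a, b, ⟨e0⟩⟩ := h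
  exact ⟨a, b, ⟨(LinearEquiv.prodCongr e.symm (LinearEquiv.refl _ _)).trans e0⟩⟩

theorem PR_iso (P Q : Type) [AddCommGroup P] [Module R P] [AddCommGroup Q] [Module R Q]
    (e : P ≃ₗ[R] Q) (h : PR R P) : PR R Q := by
  obtain ⟨h1, h2⟩ := h
  exact ⟨Module.Finite.equiv e, Module.Projective.of_equiv e⟩

end

section

variable {G : Type} [Group G] {ι : Type} [Fintype ι] [DecidableEq ι]

/-- twisting a resolution -/
theorem Res_T (A : G →* Matrix ι ι ℤ)
    (C : ∀ (P : Type) [AddCommGroup P] [Module (MonoidAlgebra ℤ G) P], Prop)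
    (hC : ∀ (P Q : Type) [AddCommGroup P] [Module (MonoidAlgebra ℤ G) P] [AddCommGroup Q]
      [Module (MonoidAlgebra ℤ G) Q], (P ≃ₗ[MonoidAlgebra ℤ G] Q) → C P → C Q)
    (hT : ∀ (P : Type) [AddCommGroup P] [Module (MonoidAlgebra ℤ G) P], C P → C (T A P))
    (n : ℕ) : ∀ (M : Type) [AddCommGroup M] [Module (MonoidAlgebra ℤ G) M],
      Res (MonoidAlgebra ℤ G) C n M → Res (MonoidAlgebra ℤ G) C n (T A M) := by
  induction n with
  | zero =>
    intro M _ _ h
    exact hT M h
  | succ n ih =>
    intro M _ _ h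
    obtain ⟨P, _, _, f, hP, hf, hk⟩ := h
    exact ⟨T A P, inferInstance, inferInstance, Tmap A f, hT P hP, Tmap_surjective f hf,
      Res_iso C hC n _ _ (kerEquiv f) (ih _ hk)⟩

end

/-- the twisted power of the trivial module -/
noncomputable def trivEquiv {G : Type} [Group G] {V : Type} [AddCommGroup V] {ι : Type}
    [Fintype ι] [DecidableEq ι] (b : Module.Basis ι ℤ V) (ρ : Representation ℤ G V)
    (A : G →* Matrix ι ι ℤ) (hA : ∀ g i j, A g i j = b.repr (ρ g (b j)) i) :
    T A (triv G).asModule ≃ₗ[MonoidAlgebra ℤ G] ρ.asModule :=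
  LinearEquiv.ofBijective
    (mkLin (M := T A (triv G).asModule) (N := ρ.asModule)
      { toFun := fun v => (b.equivFun.symm (fun i => (v i : ℤ)) : V)
        map_zero' := map_zero b.equivFun.symm
        map_add' := fun v w => map_add b.equivFun.symm _ _ }
      (fun g v => by
        rw [single_smul_T, Representation.single_smul, one_smul]
        let w : ι → ℤ := v
        let s : ι → ℤ := fun i => ∑ j, A g i j * w j
        have h1 : (fun i => (∑ j, A g i j • (MonoidAlgebra.single g (1 : ℤ) •
            (v j : (triv G).asModule)) : (triv G).asModule)) = s := by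
          funext i
          refine Finset.sum_congr rfl fun j _ => ?_
          rw [Representation.single_smul, one_smul]
          rfl
        change b.equivFun.symm (fun i => (∑ j, A g i j • (MonoidAlgebra.single g (1 : ℤ) •
            (v j : (triv G).asModule)) : (triv G).asModule)) = ρ g (b.equivFun.symm w)
        have h2 : s = b.equivFun (ρ g (b.equivFun.symm w)) := by
          funext i
          rw [Module.Basis.equivFun_symm_apply, map_sum, map_sum, Finset.sum_apply]
          refine Finset.sum_congr rfl fun j _ => ?_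
          rw [map_zsmul, map_zsmul, Pi.smul_apply, Module.Basis.equivFun_apply, ← hA, smul_eq_mul,
            mul_comm]
        exact (congrArg b.equivFun.symm (h1.trans h2)).trans (LinearEquiv.symm_apply_apply _ _)))
    (by
      exact b.equivFun.symm.bijective)

theorem t_LAT : S_LAT := by
  intro _ G _ V _ ρ hfin hfree
  classical
  let b := Module.Free.chooseBasis ℤ V
  let A : G →* Matrix (Module.Free.ChooseBasisIndex ℤ V) (Module.Free.ChooseBasisIndex ℤ V) ℤ :=
    (LinearMap.toMatrixAlgEquiv b).toMonoidHom.comp ρ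
  have hA : ∀ g i j, A g i j = b.repr (ρ g (b j)) i := by
    intro g i j
    simp [A, LinearMap.toMatrixAlgEquiv_apply]
  have e0 := trivEquiv b ρ A hA
  constructor
  · rintro ⟨n, h⟩
    exact ⟨n, Res_iso (fun P _ _ => SF (MonoidAlgebra ℤ G) P) (fun P Q _ _ _ _ e h => SF_iso P Q e h)
      n _ _ e0 (Res_T A (fun P _ _ => SF (MonoidAlgebra ℤ G) P)
        (fun P Q _ _ _ _ e h => SF_iso P Q e h) (fun P _ _ h => SF_T A P h) n _ h)⟩
  · rintro ⟨n, h⟩
    exact ⟨n, Res_iso (fun P _ _ => PR (MonoidAlgebra ℤ G) P) (fun P Q _ _ _ _ e h => PR_iso P Q e h)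
      n _ _ e0 (Res_T A (fun P _ _ => PR (MonoidAlgebra ℤ G) P)
        (fun P Q _ _ _ _ e h => PR_iso P Q e h) (fun P _ _ h => PR_T A P h) n _ h)⟩

end Pool.Agent.K1H65.HE
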